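import Pool.Agent.LE.StmtsQF

set_option autoImplicit false

/-!
# JTL: the jet of `∑ b, K(a, b)²`
-/

noncomputable section

namespace Pool.Agent.LE.QF.H16

open Pool.Agent.LE.QF

variable {X : Type} [Fintype X] [DecidableEq X]

theorem kk_symm (G : Matrix X X ℂ) (hs : ∀ a b, G a b = G b a) (a b : X) : KK G a b = KK G b a := by
  simp only [KK]; rw [hs a b]

theorem gd_symm (G : Matrix X X ℂ) (μ : X → ℂ) (hs : ∀ a b, G a b = G b a) (a b : X) :
    GD G μ a b = GD G μ b a := by
  have h : ∀ x y, GD G μ x y = ∑ c, G x c * μ c * G c y := by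
    intro x y
    unfold GD
    rw [Matrix.mul_apply]
    exact Finset.sum_congr rfl fun c _ => by rw [Matrix.mul_diagonal]
  rw [h, h]
  refine Finset.sum_congr rfl fun c _ => ?_
  rw [hs a c, hs c b]; ring

theorem ek_symm (G : Matrix X X ℂ) (μ : X → ℂ) (hs : ∀ a b, G a b = G b a) (a b : X) :
    EK G μ a b = EK G μ b a := by
  simp only [EK]; rw [hs a b, gd_symm G μ hs a b]

theorem re_sq (z : ℂ) : (2 * z.re) * (2 * z.re) = 2 * ‖z‖ ^ 2 + 2 * (z ^ 2).re := by
  rw [← Complex.normSq_eq_norm_sq, Complex.normSq_apply, pow_two, Complex.mul_re]; ring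

theorem dk_sq (G : Matrix X X ℂ) (a b c : X) :
    dK G c a b * dK G c a b = 2 * (KK G a b * KK G a c * KK G c b) +
      2 * ((starRingEnd ℂ) (BB G a b) * BB G a c * BB G c b).re := by
  have h := re_sq ((starRingEnd ℂ) (G a b) * G a c * G c b)
  have e1 : ‖(starRingEnd ℂ) (G a b) * G a c * G c b‖ ^ 2 = KK G a b * KK G a c * KK G c b := by
    simp only [KK, norm_mul, RCLike.norm_conj]; ring
  have e2 : ((starRingEnd ℂ) (G a b) * G a c * G c b) ^ 2 =
      (starRingEnd ℂ) (BB G a b) * BB G a c * BB G c b := by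
    simp only [BB, map_pow]; ring
  rw [e1, e2] at h
  simp only [dK]
  rw [← h]; ring

theorem jtl (hj : JalStmt) (hb : JtbStmt) : JtlStmt := by
  intro X _ _ q Gm ta G m τ μ hH hμ a
  obtain ⟨-, hK, -, -, -⟩ := hb X q Gm ta G m τ μ hH hμ
  obtain ⟨-, -, hmul, -, -, hsum, -, -⟩ := hj X ℝ q
  have h1 : ∀ b ∈ (Finset.univ : Finset X), HJ (fun r => KK (Gm r) a b * KK (Gm r) a b) q
      (KK G a b * KK G a b) (fun c => KK G a b * dK G c a b + dK G c a b * KK G a b)
      (KK G a b * (KK G * KK G + EK G μ) a b + (KK G * KK G + EK G μ) a b * KK G a b +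
        ∑ c, dK G c a b * dK G c a b) := fun b _ =>
    (hmul _ _ _ _ _ _ _ _ (hK a b) (hK a b)).2.2
  have h2 := hsum X Finset.univ _ _ _ _ h1
  have ef : (fun r => ∑ b, KK (Gm r) a b ^ 2) = fun r => ∑ b, KK (Gm r) a b * KK (Gm r) a b := by
    funext r; exact Finset.sum_congr rfl fun b _ => pow_two _
  have ev : ∑ b, KK G a b ^ 2 = ∑ b, KK G a b * KK G a b :=
    Finset.sum_congr rfl fun b _ => pow_two _
  have eg : (fun c => 2 * ∑ b, KK G a b * dK G c a b) =
      fun c => ∑ b, (KK G a b * dK G c a b + dK G c a b * KK G a b) := by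
    funext c
    rw [Finset.mul_sum]
    exact Finset.sum_congr rfl fun b _ => by ring
  have hs := hH.hs
  have el : lLa G μ a = ∑ b, (KK G a b * (KK G * KK G + EK G μ) a b +
      (KK G * KK G + EK G μ) a b * KK G a b + ∑ c, dK G c a b * dK G c a b) := by
    have t1 : (KK G * KK G * KK G) a a = ∑ b, (KK G * KK G) a b * KK G a b := by
      rw [Matrix.mul_apply]
      exact Finset.sum_congr rfl fun b _ => by rw [kk_symm G hs b a]
    have t2 : (KK G * EK G μ) a a = ∑ b, KK G a b * EK G μ a b := by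
      rw [Matrix.mul_apply]
      exact Finset.sum_congr rfl fun b _ => by rw [ek_symm G μ hs b a]
    have t3 : ∀ b, ∑ c, dK G c a b * dK G c a b = 2 * ((KK G * KK G) a b * KK G a b) +
        2 * ∑ c, ((starRingEnd ℂ) (BB G a b) * BB G a c * BB G c b).re := by
      intro b
      rw [Matrix.mul_apply, Finset.sum_mul, Finset.mul_sum, Finset.mul_sum, ← Finset.sum_add_distrib]
      exact Finset.sum_congr rfl fun c _ => by rw [dk_sq]; ring
    have t4 : (∑ b, ∑ c, (starRingEnd ℂ) (BB G a b) * BB G a c * BB G c b).re =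
        ∑ b, ∑ c, ((starRingEnd ℂ) (BB G a b) * BB G a c * BB G c b).re := by
      rw [Complex.re_sum]
      exact Finset.sum_congr rfl fun b _ => Complex.re_sum _ _
    unfold lLa
    rw [t1, t2, t4, Finset.mul_sum, Finset.mul_sum, Finset.mul_sum, ← Finset.sum_add_distrib,
      ← Finset.sum_add_distrib]
    refine Finset.sum_congr rfl fun b _ => ?_
    rw [t3 b, Matrix.add_apply]
    ring
  rw [ef, ev, eg, el]
  exact h2

end Pool.Agent.LE.QF.H16
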